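import Pool.Agent.K1H10.TN.NT

/-! Square products in short intervals: the choice of the parameters. -/

set_option autoImplicit false

namespace Pool.Agent.K1H10.TN

open Finset

theorem half (x : ℝ) (hx : 1 ≤ x) : x / 2 ≤ (⌊x⌋₊ : ℝ) := by
  have h1 := Nat.lt_floor_add_one x
  have h2 : (1 : ℝ) ≤ (⌊x⌋₊ : ℝ) := by exact_mod_cast Nat.le_floor (by simpa using hx)
  linarith

/-- sizes -/
theorem sizes (c A μ κ b : ℝ) (hc : 0 < c) (hA : 0 < A) (hμ : 0 < μ) (hμ1 : μ < 1 / 2)
    (hκ : 0 < κ) (hb : 0 < b) : ∃ l0 : ℝ, 1 ≤ l0 ∧ ∀ l L : ℝ, l0 ≤ l → Real.exp l = L →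
      (c + κ / 2 + 1) * √(L * l) ≤ b * L ∧ 8 * l * Real.exp (μ * l) ≤ κ * √(L * l) ∧
      A * √(L / l) + μ * l ≤ κ / 4 * √(L * l) ∧ 52 ≤ κ * √(L * l) := by
  set K := c + κ / 2 + 1 with hK
  refine ⟨1 + 1 + 2 * K ^ 2 / b ^ 2 + 16 / (κ * (1 / 2 - μ) ^ 2) + 8 * A / κ +
    2 * (8 * μ / κ) ^ 2 + 52 / κ, ?_, ?_⟩
  · have h1 : 0 < 1 / 2 - μ := by linarith
    have : 0 ≤ 2 * K ^ 2 / b ^ 2 + 16 / (κ * (1 / 2 - μ) ^ 2) + 8 * A / κ +
      2 * (8 * μ / κ) ^ 2 + 52 / κ := by positivity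
    linarith
  intro l L hl hL
  have hd : 0 < 1 / 2 - μ := by linarith
  have p1 : 0 ≤ 2 * K ^ 2 / b ^ 2 := by positivity
  have p2 : 0 ≤ 16 / (κ * (1 / 2 - μ) ^ 2) := by positivity
  have p3 : 0 ≤ 8 * A / κ := by positivity
  have p4 : 0 ≤ 2 * (8 * μ / κ) ^ 2 := by positivity
  have p5 : 0 ≤ 52 / κ := by positivity
  have l2 : 2 ≤ l := by linarith
  have hl0 : 0 < l := by linarith
  have q1 : 2 * K ^ 2 / b ^ 2 ≤ l := by linarith
  have q2 : 16 / (κ * (1 / 2 - μ) ^ 2) ≤ l := by linarith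
  have q3 : 8 * A / κ ≤ l := by linarith
  have q4 : 2 * (8 * μ / κ) ^ 2 ≤ l := by linarith
  have q5 : 52 / κ ≤ l := by linarith
  have hLpos : 0 < L := by rw [← hL]; positivity
  have hL1 : l ^ 2 / 2 ≤ L := by
    rw [← hL]
    have := Real.quadratic_le_exp_of_nonneg hl0.le
    linarith
  have hLl : l ≤ L := by nlinarith
  have hy : l ≤ √(L * l) := by
    refine Real.le_sqrt_of_sq_le ?_
    rw [sq]
    exact mul_le_mul_of_nonneg_right hLl hl0.le
  have hyz : √(L * l) = √(L / l) * l := by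
    rw [show L * l = (L / l) * l ^ 2 by field_simp, Real.sqrt_mul (by positivity),
      Real.sqrt_sq hl0.le]
  have hz : √(l / 2) ≤ √(L / l) := by
    apply Real.sqrt_le_sqrt
    rw [le_div_iff₀ hl0]
    linarith
  have hz0 : 0 ≤ √(L / l) := Real.sqrt_nonneg _
  refine ⟨?_, ?_, ?_, ?_⟩
  · rw [← Real.sqrt_sq (show 0 ≤ K by positivity), ← Real.sqrt_mul (by positivity)]
    refine Real.sqrt_le_iff.2 ⟨by positivity, ?_⟩
    rw [div_le_iff₀ (by positivity)] at q1
    have : K ^ 2 * l ≤ b ^ 2 * L := by nlinarith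
    calc K ^ 2 * (L * l) = (K ^ 2 * l) * L := by ring
      _ ≤ (b ^ 2 * L) * L := mul_le_mul_of_nonneg_right this hLpos.le
      _ = (b * L) ^ 2 := by ring
  · have h1 : Real.exp (1 / 2 * l) ≤ √(L * l) := by
      refine Real.le_sqrt_of_sq_le ?_
      rw [sq, ← Real.exp_add, show 1 / 2 * l + 1 / 2 * l = l by ring, hL]
      nlinarith
    have h2 : 8 * l ≤ κ * Real.exp ((1 / 2 - μ) * l) := by
      have h3 := Real.quadratic_le_exp_of_nonneg (x := (1 / 2 - μ) * l) (by positivity)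
      rw [div_le_iff₀ (by positivity)] at q2
      have h4 : ((1 / 2 - μ) * l) ^ 2 / 2 ≤ Real.exp ((1 / 2 - μ) * l) := by
        have : 0 ≤ (1 / 2 - μ) * l := by positivity
        linarith
      have h5 : κ * (((1 / 2 - μ) * l) ^ 2 / 2) ≤ κ * Real.exp ((1 / 2 - μ) * l) :=
        mul_le_mul_of_nonneg_left h4 hκ.le
      refine le_trans ?_ h5
      have h6 : 16 * l ≤ l * (κ * (1 / 2 - μ) ^ 2) * l := mul_le_mul_of_nonneg_right q2 hl0.le
      have h7 : l * (κ * (1 / 2 - μ) ^ 2) * l = 2 * (κ * (((1 / 2 - μ) * l) ^ 2 / 2)) := by ring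
      linarith
    calc 8 * l * Real.exp (μ * l) ≤ κ * Real.exp ((1 / 2 - μ) * l) * Real.exp (μ * l) := by gcongr
      _ = κ * Real.exp (1 / 2 * l) := by
          rw [mul_assoc, ← Real.exp_add]; congr 2; ring
      _ ≤ κ * √(L * l) := by gcongr
  · rw [div_le_iff₀ hκ] at q3
    have h1 : A * √(L / l) ≤ κ / 8 * √(L * l) := by
      rw [hyz]
      have : A ≤ κ / 8 * l := by linarith
      calc A * √(L / l) ≤ (κ / 8 * l) * √(L / l) := mul_le_mul_of_nonneg_right this hz0
        _ = κ / 8 * (√(L / l) * l) := by ring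
    have h2 : 8 * μ / κ ≤ √(L / l) := by
      refine le_trans ?_ hz
      refine Real.le_sqrt_of_sq_le ?_
      linarith
    rw [div_le_iff₀ hκ] at h2
    have h3 : μ * l ≤ κ / 8 * √(L * l) := by
      rw [hyz]
      have : μ ≤ κ / 8 * √(L / l) := by linarith
      calc μ * l ≤ (κ / 8 * √(L / l)) * l := mul_le_mul_of_nonneg_right this hl0.le
        _ = κ / 8 * (√(L / l) * l) := by ring
    linarith
  · rw [div_le_iff₀ hκ] at q5
    calc (52 : ℝ) ≤ κ * l := by linarith
      _ ≤ κ * √(L * l) := by gcongr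

theorem analysis2 (c A μ κ b : ℝ) (hc : 0 < c) (hA : 0 < A) (hμ : 0 < μ) (hμ1 : μ < 1 / 2)
    (hκ : 0 < κ) (hb : 0 < b) (hb1 : b < 1) (h1b : c * A + 4 * b = 1) (hκe : A * μ = κ + c) :
    ∃ l0 : ℝ, ∀ N : ℕ, l0 ≤ Real.log (Real.log N) → ∀ P : ℝ,
    (∀ T k M m : ℕ, 1 ≤ T → 1 ≤ M → 1 ≤ m →
      T = ⌊Real.exp (c * √(Real.log N * Real.log (Real.log N)))⌋₊ →
      P ≤ (M : ℝ) ^ 2 * (T : ℝ) ^ k +
      (T + 1) * (((N + T : ℕ) : ℝ) * (1 + Real.log ((N + T : ℕ) : ℝ)) ^ m / (m : ℝ) ^ k +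
        ((N + T : ℕ) : ℝ) / M)) →
    P ≤ N * Real.exp (-(κ / 4 * √(Real.log N * Real.log (Real.log N)))) := by
  obtain ⟨l0, hl01, hsz⟩ := sizes c A μ κ b hc hA hμ hμ1 hκ hb
  refine ⟨l0 + 10, ?_⟩
  intro N hN P hP
  set L := Real.log N with hL
  set l := Real.log L with hl
  set y := √(L * l) with hy
  have hl0 : 0 < l := by linarith
  have hLpos : 0 < L := by
    by_contra h
    rw [not_lt] at h
    have h0 : 0 ≤ L := Real.log_natCast_nonneg N
    have : L = 0 := le_antisymm h h0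
    rw [hl, this, Real.log_zero] at hl0
    exact lt_irrefl _ hl0
  have hLe : Real.exp l = L := Real.exp_log hLpos
  have hNpos : (0 : ℝ) < N := by
    by_contra h
    have h0 : (N : ℝ) = 0 := le_antisymm (not_lt.1 h) (Nat.cast_nonneg N)
    rw [hL, h0, Real.log_zero] at hLpos
    exact lt_irrefl _ hLpos
  have hNe : Real.exp L = N := Real.exp_log hNpos
  obtain ⟨s1, s2, s3, s4⟩ := hsz l L (by linarith) hLe
  rw [← hy] at s1 s2 s3 s4
  have hL10 : 10 ≤ L := by
    rw [← hLe]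
    have := Real.add_one_le_exp l
    linarith
  set z := √(L / l) with hz
  have hz0 : 0 ≤ z := Real.sqrt_nonneg _
  have hyz : y = z * l := by
    rw [hy, hz, show L * l = (L / l) * l ^ 2 by field_simp, Real.sqrt_mul (by positivity),
      Real.sqrt_sq hl0.le]
  have hyz2 : y * z = L := by
    rw [hy, hz, ← Real.sqrt_mul (by positivity), show L * l * (L / l) = L ^ 2 by field_simp,
      Real.sqrt_sq hLpos.le]
  have hy0 : 0 ≤ y := Real.sqrt_nonneg _
  have hcy : c * y ≤ b * L := by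
    have : c * y ≤ (c + κ / 2 + 1) * y := mul_le_mul_of_nonneg_right (by linarith) hy0
    linarith
  have hcκ : (c + κ / 2) * y ≤ b * L := by
    have : (c + κ / 2) * y ≤ (c + κ / 2 + 1) * y := mul_le_mul_of_nonneg_right (by linarith) hy0
    linarith
  have hbL : b * L ≤ L := by nlinarith
  -- parameters
  set T := ⌊Real.exp (c * y)⌋₊ with hT
  set k := ⌊A * z⌋₊ with hk
  set M := ⌊Real.exp (b * L)⌋₊ with hM
  set m := ⌊Real.exp (μ * l)⌋₊ with hm
  have e1 : (1 : ℝ) ≤ Real.exp (c * y) := Real.one_le_exp (by positivity)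
  have e2 : (1 : ℝ) ≤ Real.exp (b * L) := Real.one_le_exp (by positivity)
  have e3 : (1 : ℝ) ≤ Real.exp (μ * l) := Real.one_le_exp (by positivity)
  have hT1 : 1 ≤ T := Nat.le_floor (by simpa using e1)
  have hM1 : 1 ≤ M := Nat.le_floor (by simpa using e2)
  have hm1 : 1 ≤ m := Nat.le_floor (by simpa using e3)
  have hTle : (T : ℝ) ≤ Real.exp (c * y) := Nat.floor_le (by positivity)
  have hMle : (M : ℝ) ≤ Real.exp (b * L) := Nat.floor_le (by positivity)
  have hmle : (m : ℝ) ≤ Real.exp (μ * l) := Nat.floor_le (by positivity)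
  have hkle : (k : ℝ) ≤ A * z := Nat.floor_le (by positivity)
  have hkge : A * z - 1 ≤ k := by have := Nat.lt_floor_add_one (A * z); linarith
  have hMge : Real.exp (b * L) / 2 ≤ M := half _ e2
  have hmge : Real.exp (μ * l) / 2 ≤ m := half _ e3
  have hmain := hP T k M m hT1 hM1 hm1 rfl
  refine hmain.trans ?_
  -- first term
  have t1 : (M : ℝ) ^ 2 * (T : ℝ) ^ k ≤ N * Real.exp (-(2 * b * L)) := by
    have h1 : (M : ℝ) ^ 2 ≤ Real.exp (2 * b * L) := by
      calc (M : ℝ) ^ 2 ≤ Real.exp (b * L) ^ 2 := pow_le_pow_left₀ (by positivity) hMle 2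
        _ = Real.exp (2 * b * L) := by rw [← Real.exp_nat_mul]; congr 1; push_cast; ring
    have h2 : (T : ℝ) ^ k ≤ Real.exp (c * A * L) := by
      calc (T : ℝ) ^ k ≤ Real.exp (c * y) ^ k := pow_le_pow_left₀ (by positivity) hTle k
        _ = Real.exp (k * (c * y)) := by rw [← Real.exp_nat_mul]
        _ ≤ Real.exp (c * A * L) := by
            apply Real.exp_le_exp.2
            have h3 : (k : ℝ) * (c * y) ≤ (A * z) * (c * y) :=
              mul_le_mul_of_nonneg_right hkle (by positivity)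
            have h4 : (A * z) * (c * y) = c * A * (y * z) := by ring
            rw [h4, hyz2] at h3
            exact h3
    calc (M : ℝ) ^ 2 * (T : ℝ) ^ k ≤ Real.exp (2 * b * L) * Real.exp (c * A * L) := by gcongr
      _ = N * Real.exp (-(2 * b * L)) := by
          rw [← hNe, ← Real.exp_add, ← Real.exp_add]; congr 1
          have : c * A = 1 - 4 * b := by linarith
          rw [this]; ring
  have hTN : (T : ℝ) ≤ N := by
    refine hTle.trans ?_
    rw [← hNe]
    apply Real.exp_le_exp.2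
    linarith
  have hNT : ((N + T : ℕ) : ℝ) ≤ 2 * N := by push_cast; linarith
  have hNT0 : (0 : ℝ) < ((N + T : ℕ) : ℝ) := by push_cast; positivity
  have hlog : 1 + Real.log ((N + T : ℕ) : ℝ) ≤ Real.exp (2 * l) := by
    have h1 : Real.log ((N + T : ℕ) : ℝ) ≤ Real.log 2 + L := by
      rw [hL, ← Real.log_mul (by norm_num) hNpos.ne']
      exact Real.log_le_log hNT0 hNT
    have h2 : Real.log 2 ≤ 1 := by
      have := Real.log_two_lt_d9
      linarith
    have h3 : Real.exp (2 * l) = L * L := by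
      rw [two_mul, Real.exp_add, hLe]
    rw [h3]
    nlinarith
  have hlog0 : 0 ≤ 1 + Real.log ((N + T : ℕ) : ℝ) := by
    have := Real.log_natCast_nonneg (N + T)
    linarith
  -- second term
  have t2 : (1 + Real.log ((N + T : ℕ) : ℝ)) ^ m / (m : ℝ) ^ k ≤
      Real.exp (-((c + κ / 2) * y)) := by
    have h1 : (1 + Real.log ((N + T : ℕ) : ℝ)) ^ m ≤ Real.exp (κ / 4 * y) := by
      calc (1 + Real.log ((N + T : ℕ) : ℝ)) ^ m ≤ Real.exp (2 * l) ^ m :=
            pow_le_pow_left₀ hlog0 hlog m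
        _ = Real.exp (m * (2 * l)) := by rw [← Real.exp_nat_mul]
        _ ≤ Real.exp (κ / 4 * y) := by
            apply Real.exp_le_exp.2
            have h2 : (m : ℝ) * (2 * l) ≤ Real.exp (μ * l) * (2 * l) := by gcongr
            refine h2.trans ?_
            linarith
    have h2 : Real.exp ((c + 3 * κ / 4) * y) ≤ (m : ℝ) ^ k := by
      have h3 : Real.exp (μ * l - 1) ≤ m := by
        refine le_trans ?_ hmge
        rw [Real.exp_sub, div_le_div_iff_of_pos_left (by positivity) (by positivity) (by norm_num)]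
        have := Real.add_one_le_exp (1 : ℝ)
        linarith
      have h4 : (c + 3 * κ / 4) * y ≤ k * (μ * l - 1) := by
        rcases le_total 0 (μ * l - 1) with h5 | h5
        · have h6 : (A * z - 1) * (μ * l - 1) ≤ k * (μ * l - 1) :=
            mul_le_mul_of_nonneg_right hkge h5
          refine le_trans ?_ h6
          have h7 : (A * z - 1) * (μ * l - 1) = A * μ * (z * l) - (A * z + μ * l) + 1 := by ring
          rw [h7, hκe, ← hyz]
          linarith
        · exfalso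
          have h8 : A * μ * y ≤ A * z := by
            rw [hyz]
            have : μ * l ≤ 1 := by linarith
            calc A * μ * (z * l) = A * z * (μ * l) := by ring
              _ ≤ A * z * 1 := mul_le_mul_of_nonneg_left this (by positivity)
              _ = A * z := mul_one _
          rw [hκe] at h8
          have h9 : 0 ≤ μ * l := by positivity
          have h10 : 0 ≤ c * y := by positivity
          linarith
      calc Real.exp ((c + 3 * κ / 4) * y) ≤ Real.exp (k * (μ * l - 1)) := Real.exp_le_exp.2 h4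
        _ = Real.exp (μ * l - 1) ^ k := by rw [← Real.exp_nat_mul]
        _ ≤ (m : ℝ) ^ k := pow_le_pow_left₀ (by positivity) h3 k
    have hm0 : (0 : ℝ) < (m : ℝ) ^ k := lt_of_lt_of_le (Real.exp_pos _) h2
    rw [div_le_iff₀ hm0]
    calc (1 + Real.log ((N + T : ℕ) : ℝ)) ^ m ≤ Real.exp (κ / 4 * y) := h1
      _ = Real.exp (-((c + κ / 2) * y)) * Real.exp ((c + 3 * κ / 4) * y) := by
          rw [← Real.exp_add]; congr 1; ring
      _ ≤ Real.exp (-((c + κ / 2) * y)) * (m : ℝ) ^ k := by gcongr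
  have t3 : ((N + T : ℕ) : ℝ) / M ≤ 4 * N * Real.exp (-(b * L)) := by
    have hM0 : (0 : ℝ) < M := by exact_mod_cast hM1
    rw [div_le_iff₀ hM0]
    have h1 : Real.exp (-(b * L)) * Real.exp (b * L) = 1 := by
      rw [← Real.exp_add, neg_add_cancel, Real.exp_zero]
    calc ((N + T : ℕ) : ℝ) ≤ 2 * N := hNT
      _ = 2 * N * (Real.exp (-(b * L)) * Real.exp (b * L)) := by rw [h1, mul_one]
      _ = 4 * N * Real.exp (-(b * L)) * (Real.exp (b * L) / 2) := by ring
      _ ≤ 4 * N * Real.exp (-(b * L)) * M := by gcongr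
  have t4 : (T : ℝ) + 1 ≤ 2 * Real.exp (c * y) := by linarith
  have t5 : ((N + T : ℕ) : ℝ) * (1 + Real.log ((N + T : ℕ) : ℝ)) ^ m / (m : ℝ) ^ k ≤
      2 * N * Real.exp (-((c + κ / 2) * y)) := by
    rw [mul_div_assoc]
    exact mul_le_mul hNT t2 (by positivity) (by positivity)
  have t6 : Real.exp (-(b * L)) ≤ Real.exp (-((c + κ / 2) * y)) := by
    apply Real.exp_le_exp.2
    linarith
  have t6' : Real.exp (-(2 * b * L)) ≤ Real.exp (-((c + κ / 2) * y)) := by
    refine le_trans ?_ t6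
    apply Real.exp_le_exp.2
    have : 0 ≤ b * L := by positivity
    linarith
  have t7 : (M : ℝ) ^ 2 * (T : ℝ) ^ k + (T + 1) *
      (((N + T : ℕ) : ℝ) * (1 + Real.log ((N + T : ℕ) : ℝ)) ^ m / (m : ℝ) ^ k +
        ((N + T : ℕ) : ℝ) / M) ≤
      N * Real.exp (-((c + κ / 2) * y)) + (2 * Real.exp (c * y)) *
        (2 * N * Real.exp (-((c + κ / 2) * y)) + 4 * N * Real.exp (-((c + κ / 2) * y))) := by
    have h1 : N * Real.exp (-(2 * b * L)) ≤ N * Real.exp (-((c + κ / 2) * y)) := by gcongr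
    have h2 : 4 * N * Real.exp (-(b * L)) ≤ 4 * N * Real.exp (-((c + κ / 2) * y)) := by gcongr
    refine add_le_add (t1.trans h1) ?_
    refine mul_le_mul t4 (add_le_add t5 (t3.trans h2)) ?_ (by positivity)
    have : 0 ≤ ((N + T : ℕ) : ℝ) * (1 + Real.log ((N + T : ℕ) : ℝ)) ^ m / (m : ℝ) ^ k := by
      positivity
    positivity
  refine t7.trans ?_
  have t8 : Real.exp (c * y) * Real.exp (-((c + κ / 2) * y)) = Real.exp (-(κ / 2 * y)) := by
    rw [← Real.exp_add]; congr 1; ring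
  have t9 : Real.exp (-((c + κ / 2) * y)) ≤ Real.exp (-(κ / 2 * y)) := by
    apply Real.exp_le_exp.2
    have : 0 ≤ c * y := by positivity
    linarith
  have t10 : 13 * Real.exp (-(κ / 2 * y)) ≤ Real.exp (-(κ / 4 * y)) := by
    have h1 : Real.exp (-(κ / 4 * y)) = Real.exp (κ / 4 * y) * Real.exp (-(κ / 2 * y)) := by
      rw [← Real.exp_add]; congr 1; ring
    rw [h1]
    have h2 : 13 ≤ Real.exp (κ / 4 * y) := by
      have := Real.add_one_le_exp (κ / 4 * y)
      linarith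
    gcongr
  calc N * Real.exp (-((c + κ / 2) * y)) + (2 * Real.exp (c * y)) *
        (2 * N * Real.exp (-((c + κ / 2) * y)) + 4 * N * Real.exp (-((c + κ / 2) * y)))
      = N * (Real.exp (-((c + κ / 2) * y)) +
          12 * (Real.exp (c * y) * Real.exp (-((c + κ / 2) * y)))) := by
        ring
    _ ≤ N * (Real.exp (-(κ / 2 * y)) + 12 * Real.exp (-(κ / 2 * y))) := by
        rw [t8]; gcongr
    _ = N * (13 * Real.exp (-(κ / 2 * y))) := by ring
    _ ≤ N * Real.exp (-(κ / 4 * y)) := by gcongr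

end Pool.Agent.K1H10.TN
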