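import Pool.Agent.K1H10.TN.NT

/-! Square products in short intervals: counting. -/

set_option autoImplicit false

namespace Pool.Agent.K1H10.TN

open Finset

/-- there is a square product in `[n, n + T]` -/
def Sqp (T n : ℕ) : Prop := ∃ S : Finset ℕ, S ⊆ Icc n (n + T) ∧ 2 ≤ S.card ∧ IsSquare (∏ a ∈ S, a)

theorem om_mono {a b : ℕ} (ha : a ≠ 0) (h : b ∣ a) : om b ≤ om a :=
  card_le_card (Nat.primeFactors_mono h ha)

open Classical in
theorem cover (N T k M : ℕ) (hT : 1 ≤ T) :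
    (Icc 1 N).filter (Sqp T) ⊆ Icc 1 (M ^ 2 * T ^ k) ∪
      ((Icc 1 (N + T)).filter (fun a => k ≤ om a) ∪
        (Icc 1 (N + T)).filter (fun a => ∃ q, M < q ∧ q ^ 2 ∣ a)).biUnion
          (fun a => Icc (a - T) a) := by
  intro n hn
  rw [mem_filter, mem_Icc] at hn
  obtain ⟨⟨hn1, hn2⟩, S, hS, hc, r, hr⟩ := hn
  rw [mem_union]
  by_cases hA : n ≤ M ^ 2 * T ^ k
  · left
    exact mem_Icc.2 ⟨hn1, hA⟩
  right
  rw [not_le] at hA
  obtain ⟨a, ha⟩ : S.Nonempty := by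
    rw [← card_pos]; omega
  have ha1 := mem_Icc.1 (hS ha)
  obtain ⟨b, q, e, hb, hbT⟩ := struct n T r S hn1 hS (by rw [hr, sq]) a ha
  rw [mem_biUnion]
  refine ⟨a, ?_, mem_Icc.2 ⟨by omega, ha1.1⟩⟩
  rw [mem_union, mem_filter, mem_filter, mem_Icc]
  have ha0 : a ≠ 0 := by omega
  by_cases hk : k ≤ om b
  · left
    exact ⟨⟨by omega, by omega⟩, hk.trans (om_mono ha0 (by rw [e]; exact dvd_mul_left _ _))⟩
  · right
    rw [not_le] at hk
    refine ⟨⟨by omega, by omega⟩, q, ?_, by rw [e]; exact dvd_mul_right _ _⟩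
    by_contra hq
    rw [not_lt] at hq
    have h1 : b ≤ T ^ k := (smooth_le b T hb hbT).trans (Nat.pow_le_pow_right hT hk.le)
    have h2 : q ^ 2 * b ≤ M ^ 2 * T ^ k := Nat.mul_le_mul (Nat.pow_le_pow_left hq 2) h1
    omega

open Classical in
theorem count (N T k M m : ℕ) (hT : 1 ≤ T) (hM : 1 ≤ M) (hm : 1 ≤ m) :
    ((((Icc 1 N).filter (Sqp T)).card : ℕ) : ℝ) ≤ (M : ℝ) ^ 2 * (T : ℝ) ^ k +
      (T + 1) * (((N + T : ℕ) : ℝ) * (1 + Real.log ((N + T : ℕ) : ℝ)) ^ m / (m : ℝ) ^ k +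
        ((N + T : ℕ) : ℝ) / M) := by
  have h1 := card_le_card (cover N T k M hT)
  have h2 := (h1.trans (card_union_le _ _))
  rw [Nat.card_Icc, Nat.add_sub_cancel] at h2
  have h3 : ((((Icc 1 (N + T)).filter (fun a => k ≤ om a) ∪
        (Icc 1 (N + T)).filter (fun a => ∃ q, M < q ∧ q ^ 2 ∣ a)).biUnion
          (fun a => Icc (a - T) a)).card) ≤
      (((Icc 1 (N + T)).filter (fun a => k ≤ om a)).card +
        ((Icc 1 (N + T)).filter (fun a => ∃ q, M < q ∧ q ^ 2 ∣ a)).card) * (T + 1) := by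
    refine (card_biUnion_le_card_mul _ _ (T + 1) fun a _ => ?_).trans
      (Nat.mul_le_mul_right _ (card_union_le _ _))
    rw [Nat.card_Icc]
    omega
  have h4 : ((((Icc 1 N).filter (Sqp T)).card : ℕ) : ℝ) ≤ (M : ℝ) ^ 2 * (T : ℝ) ^ k +
      (((((Icc 1 (N + T)).filter (fun a => k ≤ om a)).card : ℕ) : ℝ) +
        ((((Icc 1 (N + T)).filter (fun a => ∃ q, M < q ∧ q ^ 2 ∣ a)).card : ℕ) : ℝ)) *
          ((T : ℝ) + 1) := by
    exact_mod_cast h2.trans (Nat.add_le_add_left h3 _)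
  refine h4.trans ?_
  have h5 := omega_count m k (N + T) hm
  have h6 := sq_count M (N + T) hM
  have hm0 : (0 : ℝ) < (m : ℝ) ^ k := by positivity
  have h7 : ((((Icc 1 (N + T)).filter (fun a => k ≤ om a)).card : ℕ) : ℝ) ≤
      ((N + T : ℕ) : ℝ) * (1 + Real.log ((N + T : ℕ) : ℝ)) ^ m / (m : ℝ) ^ k := by
    rw [le_div_iff₀ hm0]
    exact h5
  rw [mul_comm _ ((T : ℝ) + 1)]
  gcongr

end Pool.Agent.K1H10.TN
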