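import Mathlib

/-! Square products in short intervals: arithmetic part. -/

set_option autoImplicit false

namespace Pool.Agent.K1H10.TN

open Finset

/-- an element of a square product in a short interval -/
theorem struct (n T r : ℕ) (S : Finset ℕ) (hn : 1 ≤ n) (hS : S ⊆ Icc n (n + T))
    (hr : ∏ a ∈ S, a = r ^ 2) (a : ℕ) (ha : a ∈ S) :
    ∃ b m : ℕ, a = m ^ 2 * b ∧ Squarefree b ∧ ∀ p, p.Prime → p ∣ b → p ≤ T := by
  have hpos : ∀ x ∈ S, x ≠ 0 := by
    intro x hx
    have := (mem_Icc.1 (hS hx)).1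
    omega
  obtain ⟨m, b, e, hb⟩ := Nat.sq_mul_squarefree a
  obtain ⟨hb, e⟩ : Squarefree m ∧ b ^ 2 * m = a := by
    exact ⟨hb, e⟩
  refine ⟨m, b, e.symm, hb, ?_⟩
  intro p hp hpb
  by_contra hlt
  rw [not_le] at hlt
  have ha0 := hpos a ha
  have hm0 : m ≠ 0 := by rintro rfl; exact ha0 (by rw [← e, mul_zero])
  have hb0 : b ≠ 0 := by rintro rfl; exact ha0 (by rw [← e]; simp)
  have h1 : a.factorization p = 2 * b.factorization p + 1 := by
    rw [← e, Nat.factorization_mul (pow_ne_zero _ hb0) hm0, Nat.factorization_pow,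
      Finsupp.add_apply, Finsupp.smul_apply, smul_eq_mul]
    congr 1
    have h2 : m.factorization p ≤ 1 := (Nat.squarefree_iff_factorization_le_one hm0).1 hb p
    have h3 : 1 ≤ m.factorization p := (hp.dvd_iff_one_le_factorization hm0).1 hpb
    omega
  have h4 : ∀ x ∈ S, x ≠ a → x.factorization p = 0 := by
    intro x hx hxa
    apply Nat.factorization_eq_zero_of_not_dvd
    intro hpx
    have hpa : p ∣ a := by rw [← e]; exact Dvd.dvd.mul_left hpb _
    have i1 := mem_Icc.1 (hS hx)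
    have i2 := mem_Icc.1 (hS ha)
    rcases Nat.lt_or_gt_of_ne hxa with h | h
    · have := Nat.le_of_dvd (by omega) (Nat.dvd_sub hpa hpx)
      omega
    · have := Nat.le_of_dvd (by omega) (Nat.dvd_sub hpx hpa)
      omega
  have h5 : (∏ x ∈ S, x).factorization p = a.factorization p := by
    rw [Nat.factorization_prod hpos, Finsupp.finsetSum_apply, Finset.sum_eq_single a]
    · exact fun x hx hxa => h4 x hx hxa
    · exact fun h => absurd ha h
  rw [hr, Nat.factorization_pow, Finsupp.smul_apply, smul_eq_mul, h1] at h5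
  omega

/-- a squarefree smooth number with few prime factors is small -/
theorem smooth_le (b T : ℕ) (hb : Squarefree b) (h : ∀ p, p.Prime → p ∣ b → p ≤ T) :
    b ≤ T ^ b.primeFactors.card := by
  calc b = ∏ p ∈ b.primeFactors, p := (Nat.prod_primeFactors_of_squarefree hb).symm
    _ ≤ ∏ _p ∈ b.primeFactors, T := by
        refine prod_le_prod' fun p hp => ?_
        exact h p (Nat.prime_of_mem_primeFactors hp) (Nat.dvd_of_mem_primeFactors hp)
    _ = T ^ b.primeFactors.card := by rw [prod_const]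

/-- the number of the prime factors -/
def om (n : ℕ) : ℕ := n.primeFactors.card

theorem om_div (m n : ℕ) (hn : n ≠ 0) : (m + 1) ^ om n ≤ ∑ d ∈ n.divisors, m ^ om d := by
  have h1 : (m + 1) ^ om n = ∑ s ∈ n.primeFactors.powerset, m ^ s.card := by
    have := Finset.sum_pow_mul_eq_add_pow m 1 n.primeFactors
    simp only [one_pow, mul_one] at this
    exact this.symm
  have h2 : ∀ s ∈ n.primeFactors.powerset, (∏ p ∈ s, p).primeFactors = s := by
    intro s hs
    apply Nat.primeFactors_prod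
    intro p hp
    exact Nat.prime_of_mem_primeFactors (mem_powerset.1 hs hp)
  have h3 : ∑ s ∈ n.primeFactors.powerset, m ^ s.card =
      ∑ d ∈ n.primeFactors.powerset.image (fun s => ∏ p ∈ s, p), m ^ om d := by
    rw [sum_image]
    · refine sum_congr rfl fun s hs => ?_
      rw [om, h2 s hs]
    · intro s hs t ht he
      have := congrArg Nat.primeFactors he
      simp only at this
      rwa [h2 s hs, h2 t ht] at this
  rw [h1, h3]
  refine sum_le_sum_of_subset ?_
  intro d hd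
  obtain ⟨s, hs, rfl⟩ := mem_image.1 hd
  rw [Nat.mem_divisors]
  refine ⟨?_, hn⟩
  exact (prod_dvd_prod_of_subset _ _ _ (mem_powerset.1 hs)).trans (Nat.prod_primeFactors_dvd n)

/-- harmonic sum -/
noncomputable def HH (N : ℕ) : ℝ := ∑ n ∈ Icc 1 N, (1 : ℝ) / n

theorem HH_le (N : ℕ) : HH N ≤ 1 + Real.log N := by
  have h := harmonic_le_one_add_log N
  unfold HH
  refine le_trans (le_of_eq ?_) h
  rw [harmonic_eq_sum_Icc]
  push_cast
  refine sum_congr rfl fun i _ => ?_
  rw [one_div]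

theorem HH_nonneg (N : ℕ) : 0 ≤ HH N := by
  unfold HH
  exact sum_nonneg fun n _ => by positivity

theorem mult_sum (d N : ℕ) (hd : 1 ≤ d) :
    ∑ n ∈ (Icc 1 N).filter (fun n => d ∣ n), (1 : ℝ) / n ≤ 1 / d * HH N := by
  have h1 : (Icc 1 N).filter (fun n => d ∣ n) ⊆ (Icc 1 N).image (fun e => d * e) := by
    intro n hn
    rw [mem_filter, mem_Icc] at hn
    obtain ⟨⟨h1, h2⟩, e, rfl⟩ := hn
    rw [mem_image]
    refine ⟨e, ?_, rfl⟩
    rw [mem_Icc]
    constructor
    · rcases Nat.eq_zero_or_pos e with h | h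
      · subst h; simp at h1
      · exact h
    · exact le_trans (Nat.le_mul_of_pos_left e hd) h2
  refine (sum_le_sum_of_subset_of_nonneg h1 fun n _ _ => by positivity).trans (le_of_eq ?_)
  rw [sum_image, HH, mul_sum]
  · refine sum_congr rfl fun e _ => ?_
    push_cast
    rw [one_div_mul_one_div]
  · intro x _ y _ h
    exact Nat.eq_of_mul_eq_mul_left hd h

theorem EE (m N : ℕ) (hm : 1 ≤ m) : ∑ n ∈ Icc 1 N, ((m : ℝ) ^ om n) / n ≤ HH N ^ m := by
  induction m, hm using Nat.le_induction with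
  | base => simp [HH]
  | succ m hm ih =>
    have h1 : ∑ n ∈ Icc 1 N, (((m + 1 : ℕ) : ℝ) ^ om n) / n ≤
        ∑ n ∈ Icc 1 N, ∑ d ∈ Icc 1 N, if d ∣ n then ((m : ℝ) ^ om d) * (1 / n) else 0 := by
      refine sum_le_sum fun n hn => ?_
      rw [mem_Icc] at hn
      have h2 : (((m + 1 : ℕ) : ℝ) ^ om n) ≤ ∑ d ∈ n.divisors, (m : ℝ) ^ om d := by
        exact_mod_cast om_div m n (by omega)
      have h3 : n.divisors ⊆ (Icc 1 N).filter (fun d => d ∣ n) := by
        intro d hd
        rw [mem_filter, mem_Icc]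
        have h4 := Nat.dvd_of_mem_divisors hd
        exact ⟨⟨Nat.pos_of_mem_divisors hd, (Nat.le_of_dvd (by omega) h4).trans hn.2⟩, h4⟩
      rw [← sum_filter, ← sum_mul, div_eq_mul_one_div]
      refine mul_le_mul_of_nonneg_right (h2.trans ?_) (by positivity)
      exact sum_le_sum_of_subset_of_nonneg h3 fun n _ _ => by positivity
    rw [sum_comm] at h1
    refine h1.trans ?_
    have h5 : ∀ d ∈ Icc 1 N, (∑ n ∈ Icc 1 N, if d ∣ n then ((m : ℝ) ^ om d) * (1 / n) else 0) ≤
        ((m : ℝ) ^ om d) / d * HH N := by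
      intro d hd
      rw [← sum_filter, ← mul_sum]
      have h6 := mult_sum d N (mem_Icc.1 hd).1
      calc ((m : ℝ) ^ om d) * ∑ n ∈ (Icc 1 N).filter (fun n => d ∣ n), (1 : ℝ) / n
          ≤ ((m : ℝ) ^ om d) * (1 / d * HH N) := mul_le_mul_of_nonneg_left h6 (by positivity)
        _ = ((m : ℝ) ^ om d) / d * HH N := by ring
    refine (sum_le_sum h5).trans ?_
    rw [← sum_mul, pow_succ]
    exact mul_le_mul_of_nonneg_right ih (HH_nonneg N)

theorem omega_count (m k N : ℕ) (hm : 1 ≤ m) :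
    ((((Icc 1 N).filter fun n => k ≤ om n).card : ℕ) : ℝ) * (m : ℝ) ^ k ≤
      N * (1 + Real.log N) ^ m := by
  have hm1 : (1 : ℝ) ≤ m := by exact_mod_cast hm
  have h1 : ((((Icc 1 N).filter fun n => k ≤ om n).card : ℕ) : ℝ) * (m : ℝ) ^ k ≤
      ∑ n ∈ Icc 1 N, N * (((m : ℝ) ^ om n) / n) := by
    rw [← nsmul_eq_mul, ← sum_const]
    refine le_trans ?_ (sum_le_sum_of_subset_of_nonneg (filter_subset (fun n => k ≤ om n) (Icc 1 N)) fun n _ _ => by positivity)
    refine sum_le_sum fun n hn => ?_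
    rw [mem_filter, mem_Icc] at hn
    have h2 : (m : ℝ) ^ k ≤ (m : ℝ) ^ om n := pow_le_pow_right₀ hm1 hn.2
    have h3 : (1 : ℝ) ≤ N / n := by
      rw [le_div_iff₀ (by exact_mod_cast hn.1.1), one_mul]
      exact_mod_cast hn.1.2
    calc (m : ℝ) ^ k ≤ (m : ℝ) ^ om n * 1 := by rw [mul_one]; exact h2
      _ ≤ (m : ℝ) ^ om n * (N / n) := mul_le_mul_of_nonneg_left h3 (by positivity)
      _ = N * (((m : ℝ) ^ om n) / n) := by ring
  refine h1.trans ?_
  rw [← mul_sum]
  refine mul_le_mul_of_nonneg_left ((EE m N hm).trans ?_) (by positivity)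
  exact pow_le_pow_left₀ (HH_nonneg N) (HH_le N) m

open Classical in
theorem sq_count (M N : ℕ) (hM : 1 ≤ M) :
    ((((Icc 1 N).filter fun n => ∃ q, M < q ∧ q ^ 2 ∣ n).card : ℕ) : ℝ) ≤ N / M := by
  have h1 : (Icc 1 N).filter (fun n => ∃ q, M < q ∧ q ^ 2 ∣ n) ⊆
      (Ioc M (M + N)).biUnion (fun q => (Ioc 0 N).filter (fun n => q ^ 2 ∣ n)) := by
    intro n hn
    rw [mem_filter, mem_Icc] at hn
    obtain ⟨⟨h1, h2⟩, q, h3, h4⟩ := hn
    rw [mem_biUnion]
    refine ⟨q, ?_, ?_⟩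
    · rw [mem_Ioc]
      refine ⟨h3, ?_⟩
      have h5 := Nat.le_of_dvd (by omega) h4
      have h6 : q ≤ q ^ 2 := Nat.le_self_pow (by norm_num) q
      omega
    · rw [mem_filter, mem_Ioc]
      exact ⟨⟨by omega, h2⟩, h4⟩
  have h2 : ((((Icc 1 N).filter fun n => ∃ q, M < q ∧ q ^ 2 ∣ n).card : ℕ) : ℝ) ≤
      ∑ q ∈ Ioc M (M + N), (N : ℝ) * (((q : ℝ) ^ 2)⁻¹) := by
    have h3 := (card_le_card h1).trans card_biUnion_le
    have h4 : ((((Icc 1 N).filter fun n => ∃ q, M < q ∧ q ^ 2 ∣ n).card : ℕ) : ℝ) ≤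
        ((∑ q ∈ Ioc M (M + N), ((Ioc 0 N).filter (fun n => q ^ 2 ∣ n)).card : ℕ) : ℝ) := by
      exact_mod_cast h3
    refine h4.trans ?_
    push_cast
    refine sum_le_sum fun q hq => ?_
    rw [Nat.Ioc_filter_dvd_card_eq_div]
    refine Nat.cast_div_le.trans (le_of_eq ?_)
    push_cast
    rw [div_eq_mul_inv]
  refine h2.trans ?_
  rw [← mul_sum]
  have h5 := sum_Ioc_inv_sq_le_sub (α := ℝ) (k := M) (n := M + N) (by omega) (by omega)
  have h6 : (0 : ℝ) ≤ (((M + N : ℕ) : ℝ))⁻¹ := by positivity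
  rw [div_eq_mul_inv]
  refine mul_le_mul_of_nonneg_left ?_ (by positivity)
  linarith

end Pool.Agent.K1H10.TN
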